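import Pool.Agent.Lib.MP_aa9b81_an.TC.Bij

/-!
# Neutral maps, neutral subshifts of finite type and their frequency
-/

noncomputable section

set_option autoImplicit false

namespace Pool.Agent.Lib.MP_aa9b81_an.AS

open Topology Set Filter Cut

/-- The map `p : M → B` of `Γ`-spaces is neutral. If `Γ` acts by continuous linear maps on the
Hausdorff locally convex space `E` and amenably on the invariant nonempty compact convex set `Q ⊆ E`,
and if `W` is the open cone on `Q`, then
* `p` induces bijections of the groups `K₁(C₀(B × W × (0,1)^j) ⋊_r Γ)` and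
  `K₁(C₀(M × W × (0,1)^j) ⋊_r Γ)` for all `j > 0`;
* `M × Q → M` induces bijections of the groups `K₁(C₀(M × (0,1)^j) ⋊_r Γ)` and
  `K₁(C₀(M × Q × (0,1)^j) ⋊_r Γ)` for all large `j` if and only if `B × Q → B` does. -/
def Neutral (Γ : Type) [Group Γ] {M B : Type} [TopologicalSpace M] [MulAction Γ M]
    [TopologicalSpace B] [MulAction Γ B] (p : M → B) : Prop :=
  ∀ (E : Type) [AddCommGroup E] [Module ℝ E] [TopologicalSpace E] [T2Space E]
    [ContinuousAdd E] [ContinuousSMul ℝ E] [DistribMulAction Γ E] [SMulCommClass Γ ℝ E]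
    [ContinuousConstSMul Γ E] [LocallyConvexSpace ℝ E] (Q : ConvexSpace Γ E),
    AmenableAction Γ Q.Pt →
      (∀ j > 0, K1Bij Γ (fun x : M × Cone Q × Cube j => ((p x.1, x.2) : B × Cone Q × Cube j))) ∧
      ((∀ᶠ j in atTop, K1Bij Γ (fun x : M × Q.Pt × Cube j => ((x.1, x.2.2) : M × Cube j))) ↔
        ∀ᶠ j in atTop, K1Bij Γ (fun x : B × Q.Pt × Cube j => ((x.1, x.2.2) : B × Cube j)))

/-- The subshift of finite type over `Γ` with alphabet `{0, …, n - 1}`, window `V` and set `P` of
allowed patterns is neutral over every locally compact Hausdorff `Γ`-space `B`. -/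
def NeutralSFT (Γ : Type) [Group Γ] (n : ℕ) (V : Finset Γ) (P : Set (V → Fin n)) : Prop :=
  ∀ (B : Type) [TopologicalSpace B] [T2Space B] [LocallyCompactSpace B] [MulAction Γ B]
    [ContinuousConstSMul Γ B], Neutral Γ (fun x : B × SFT Γ n V P => x.1)

open scoped Classical in
/-- The probability that the subshift of finite type over `Γ` with alphabet `{0, …, n - 1}`, window
`V` and set `P` of allowed patterns is not neutral or has no fixed point, if every one of the
`n ^ |V|` patterns is in `P` with probability `α`, independently of the others. -/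
def badProb (Γ : Type) [Group Γ] (V : Finset Γ) (α : ℝ) (n : ℕ) : ℝ :=
  ∑ P : Finset (V → Fin n),
    if NeutralSFT Γ n V P ∧ ∃ z : SFT Γ n V P, ∀ g : Γ, g • z = z then 0 else
      α ^ P.card * (1 - α) ^ (n ^ V.card - P.card)

end Pool.Agent.Lib.MP_aa9b81_an.AS
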