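import Pool.Agent.Lib.MP_aa9b81_an.AS.Defs
import Pool.Agent.Lib.MP_aa9b81_an.Mg.G081
import Pool.Agent.Lib.MP_aa9b81_an.Mg.G083

/-!
# Almost all subshifts of finite type are neutral
-/

noncomputable section

set_option autoImplicit false

namespace Pool.Agent.Lib.MP_aa9b81_an.AS

open Topology Set Filter Cut

/-- A criterion for neutrality. -/
theorem neutral_of_isoU {Γ : Type} [Group Γ] {M B : Type} [TopologicalSpace M] [T2Space M]
    [LocallyCompactSpace M] [MulAction Γ M] [ContinuousConstSMul Γ M] [TopologicalSpace B]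
    [T2Space B] [LocallyCompactSpace B] [MulAction Γ B] [ContinuousConstSMul Γ B] {p : M → B}
    (hp : IsProperMap p) (he : ∀ (g : Γ) z, p (g • z) = g • p z)
    (h : ∀ (E : Type) [AddCommGroup E] [Module ℝ E] [TopologicalSpace E] [T2Space E]
      [ContinuousAdd E] [ContinuousSMul ℝ E] [DistribMulAction Γ E] [SMulCommClass Γ ℝ E]
      [ContinuousConstSMul Γ E] [LocallyConvexSpace ℝ E] (Q : ConvexSpace Γ E),
      AmenableAction Γ Q.Pt → ∀ j : ℕ, IsoU Γ (Prod.map p
        (id : Cone Q × Cube (j + 1) → Cone Q × Cube (j + 1)))) : Neutral Γ p := by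
  intro E _ _ _ _ _ _ _ _ _ _ Q hQ
  have hcone := cone_locallyCompact Q
  have hA := propA_of_convexSpace Q hQ
  refine ⟨fun j hj => ?_, (eventually_k1Bij_prQ_iff Q hA hp he (h E Q hQ)).symm⟩
  obtain ⟨i, rfl⟩ : ∃ i, j = i + 1 := ⟨j - 1, by omega⟩
  have he' : ∀ (g : Γ) x, Prod.map p (id : Cone Q × Cube (i + 1) → Cone Q × Cube (i + 1)) (g • x) =
      g • Prod.map p (id : Cone Q × Cube (i + 1) → Cone Q × Cube (i + 1)) x :=
    fun g x => Prod.ext (he g x.1) rfl
  exact (k1Bij_iff (hp.prodMap isProperMap_id) he').2 (h E Q hQ i)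

section

variable {Γ : Type} [Group Γ] [Countable Γ] {B : Type} [TopologicalSpace B] [T2Space B]
  [LocallyCompactSpace B] [MulAction Γ B] [ContinuousConstSMul Γ B]

/-- Spaces of maximal sets are neutral. -/
theorem neutral_maxSets {C : Type} [MulAction Γ C]
    (hC : ∀ c : C, Finite (MulAction.stabilizer Γ c)) (F : Forbidden Γ B C) :
    Neutral Γ (fun z : F.maxSets.Pt => (F.maxSets.val z).1) := by
  have hMc := F.isClosed_maxSets
  have hMl : LocallyCompactSpace F.maxSets.Pt := InvSet.locallyCompactSpace _ hMc.isLocallyClosed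
  have hp : IsProperMap fun z : F.maxSets.Pt => (F.maxSets.val z).1 := isProperMap_prP_aux _ hMc
  refine neutral_of_isoU hp (fun _ _ => rfl) ?_
  intro E _ _ _ _ _ _ _ _ _ _ Q hQ j
  exact isoU_maxSets Γ E Q (propA_of_convexSpace Q hQ) hC F j

omit [Countable Γ] in
/-- The differences of two spaces of maximal sets have no groups. -/
theorem zero_diff [Countable Γ] {C : Type} [MulAction Γ C]
    (hC : ∀ c : C, Finite (MulAction.stabilizer Γ c)) (F F' : Forbidden Γ B C)
    (hF : F'.maxSets.carrier ⊆ F.maxSets.carrier)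
    (E : Type) [AddCommGroup E] [Module ℝ E] [TopologicalSpace E] [T2Space E]
    [ContinuousAdd E] [ContinuousSMul ℝ E] [DistribMulAction Γ E] [SMulCommClass Γ ℝ E]
    [ContinuousConstSMul Γ E] [LocallyConvexSpace ℝ E] (Q : ConvexSpace Γ E)
    (hQ : AmenableAction Γ Q.Pt) {j : ℕ} (hj : 0 < j) :
    K1Zero Γ ((F.maxSets.diff F'.maxSets).Pt × Cone Q × Cube j) := by
  have hcone := cone_locallyCompact Q
  have hA := propA_of_convexSpace Q hQ
  obtain ⟨i, rfl⟩ : ∃ i, j = i + 1 := ⟨j - 1, by omega⟩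
  have h3 : LocallyCompactSpace (F.maxSets.diff F'.maxSets).Pt :=
    (F.maxSets.diff F'.maxSets).locallyCompactSpace
      (F.isClosed_maxSets.isLocallyClosed.inter F'.isClosed_maxSets.isOpen_compl.isLocallyClosed)
  exact k1Zero_iff.2 (zero_maxSets_diff Γ E Q hA hC F F' hF i)

end

/-- Subshifts of finite type which leave a choice in every context are neutral. -/
theorem neutralSFT_of_flex {Γ : Type} [Group Γ] [Countable Γ] {n : ℕ} (hn : 0 < n) {V : Finset Γ}
    (hV : V.Nonempty) {P : Set (V → Fin n)} (hP : Flex P) : NeutralSFT Γ n V P := by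
  intro B _ _ _ _ _
  have hp : IsProperMap fun x : B × SFT Γ n V P => x.1 := isProperMap_fst_of_compactSpace
  refine neutral_of_isoU hp (fun _ _ => rfl) ?_
  intro E _ _ _ _ _ _ _ _ _ _ Q hQ j
  have hMc := (forb B V hV P).isClosed_maxSets
  have hMl : LocallyCompactSpace (forb B V hV P).maxSets.Pt :=
    InvSet.locallyCompactSpace _ hMc.isLocallyClosed
  have hp' : IsProperMap fun z : (forb B V hV P).maxSets.Pt => ((forb B V hV P).maxSets.val z).1 :=
    isProperMap_prP_aux _ hMc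
  have hcone := cone_locallyCompact Q
  exact isoU_conj ((homeoMax B hV hn hP).prodCongr (Homeomorph.refl (Cone Q × Cube (j + 1))))
    (Homeomorph.refl _) (fun g x => Prod.ext (toMax_smul g x.1) rfl) (fun _ _ => rfl)
    (fun _ => rfl) (hp'.prodMap isProperMap_id) (fun g x => rfl)
    (hp.prodMap isProperMap_id) (fun g x => rfl)
    (isoU_maxSets Γ E Q (propA_of_convexSpace Q hQ) finite_stabilizer_let (forb B V hV P) j)

/-- A constant allowed pattern gives a fixed point. -/
theorem exists_fixed {Γ : Type} [Group Γ] {n : ℕ} {V : Finset Γ} {P : Set (V → Fin n)} {a : Fin n}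
    (ha : (fun _ => a) ∈ P) : ∃ z : SFT Γ n V P, ∀ g : Γ, g • z = z :=
  ⟨⟨fun _ => a, fun _ => ha⟩, fun _ => rfl⟩

/-- The bound for the probability. -/
theorem badProb_le {Γ : Type} [Group Γ] [Countable Γ] {V : Finset Γ} (hV : V.Nonempty) {α : ℝ}
    (h0 : 0 ≤ α) (h1 : α ≤ 1) {n : ℕ} (hn : 0 < n) :
    badProb Γ V α n ≤ n ^ (V.card * (V.card - 1)) *
      (1 - α ^ V.card) ^ (n - V.card * (V.card - 1)) + (1 - α) ^ n := by
  classical
  have hne : Nonempty V := hV.to_subtype
  have h2 := sum_bad h0 h1 (Finset.univ.filter fun P : Finset (V → Fin n) =>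
    ¬ NeutralSFT Γ n V (P : Set (V → Fin n))) (fun P hP => by
      have h3 := (Finset.mem_filter.1 hP).2
      have h4 : ¬ Flex (P : Set (V → Fin n)) := fun h => h3 (neutralSFT_of_flex hn hV h)
      obtain ⟨κ, hκ⟩ := exists_of_not_flex h4
      exact ⟨κ, fun a => by
        obtain ⟨s, hs⟩ := hκ a
        exact ⟨s, fun h => hs (Finset.mem_coe.2 h)⟩⟩)
  have h5 := sum_noconst h0 h1 (Finset.univ.filter fun P : Finset (V → Fin n) =>
    ¬ ∃ z : SFT Γ n V (P : Set (V → Fin n)), ∀ g : Γ, g • z = z) (fun P hP a ha =>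
      (Finset.mem_filter.1 hP).2 (exists_fixed (Finset.mem_coe.2 ha)))
  rw [Fintype.card_coe] at h2
  refine le_trans ?_ (add_le_add h2 h5)
  unfold badProb
  rw [Finset.sum_filter, Finset.sum_filter, ← Finset.sum_add_distrib]
  refine Finset.sum_le_sum fun P _ => ?_
  have h6 : 0 ≤ wt α P := wt_nonneg h0 h1 P
  have h7 : wt α P = α ^ P.card * (1 - α) ^ (n ^ V.card - P.card) := by
    unfold wt
    rw [Fintype.card_fun, Fintype.card_fin, Fintype.card_coe]
  rw [← h7]
  by_cases ha : NeutralSFT Γ n V (P : Set (V → Fin n))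
  · by_cases hb : ∃ z : SFT Γ n V (P : Set (V → Fin n)), ∀ g : Γ, g • z = z
    · rw [if_pos ⟨ha, hb⟩, if_neg (not_not.2 ha), if_neg (not_not.2 hb), add_zero]
    · rw [if_neg (fun h => hb h.2), if_neg (not_not.2 ha), if_pos hb, zero_add]
  · rw [if_neg (fun h => ha h.1), if_pos ha]
    split_ifs
    · linarith
    · linarith

theorem badProb_nonneg {Γ : Type} [Group Γ] {V : Finset Γ} {α : ℝ}
    (h0 : 0 ≤ α) (h1 : α ≤ 1) (n : ℕ) : 0 ≤ badProb Γ V α n := by
  unfold badProb
  refine Finset.sum_nonneg fun P _ => ?_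
  split_ifs
  · exact le_rfl
  · exact mul_nonneg (pow_nonneg h0 _) (pow_nonneg (by linarith) _)

/-- Almost all subshifts of finite type are neutral. -/
theorem tendsto_badProb {Γ : Type} [Group Γ] [Countable Γ] {V : ℕ → Finset Γ}
    (hV : ∀ n, (V n).Nonempty) {α : ℕ → ℝ} (h0 : ∀ n, 0 ≤ α n) (h1 : ∀ n, α n ≤ 1)
    (h : Tendsto (fun n => α n ^ (V n).card * n / ((V n).card ^ 2 * Real.log n)) atTop atTop) :
    Tendsto (fun n => badProb Γ (V n) (α n) n) atTop (𝓝 0) := by
  have h2 : Tendsto (fun n : ℕ => 1 / (n : ℝ) + 1 / (n : ℝ)) atTop (𝓝 0) := by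
    have h3 := (tendsto_one_div_atTop_nhds_zero_nat (𝕜 := ℝ)).add
      (tendsto_one_div_atTop_nhds_zero_nat (𝕜 := ℝ))
    rwa [add_zero] at h3
  refine squeeze_zero' (Eventually.of_forall fun n => badProb_nonneg (h0 n) (h1 n) n) ?_ h2
  filter_upwards [h.eventually_ge_atTop 3, eventually_ge_atTop 3] with n hn3 hn
  have hv : 1 ≤ (V n).card := Finset.card_pos.2 (hV n)
  have hL : 0 < Real.log n := Real.log_pos (by
    have : 1 < n := by omega
    exact_mod_cast this)
  have hv2 : (0 : ℝ) < ((V n).card : ℝ) ^ 2 := by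
    have : (0 : ℝ) < (V n).card := by exact_mod_cast hv
    positivity
  have h4 : 3 * (((V n).card : ℝ) ^ 2 * Real.log n) ≤ α n ^ (V n).card * n := by
    rwa [le_div_iff₀ (mul_pos hv2 hL)] at hn3
  refine (badProb_le (hV n) (h0 n) (h1 n) (by omega)).trans (add_le_add ?_ ?_)
  · exact bound_le_inv hv hn (pow_nonneg (h0 n) _) (pow_le_one₀ (h0 n) (h1 n)) h4
  · exact bound_le_inv' hv hn (h0 n) (h1 n) h4

end Pool.Agent.Lib.MP_aa9b81_an.AS
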